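import Pool.Agent.Q309.OFF.DImg

/-!
Points over difference fields (in particular analytic maps from algebraic groups) which satisfy linear
difference equations: the images of their loci are covered by rational curves or the image point is
periodic.
-/

set_option autoImplicit false

namespace Pool.Agent.Results.MP_e120ef_ag.DifferenceFieldImages

open MvPolynomial
open Pool.Agent.Q309.OFF (OnV OnCurve ImIdeal ptIdeal DRec Par diff_image)

variable {K E : Type} [Field K] [Field E] [Algebra K E] {n s : ℕ}

/-- The coordinates of the point `h` satisfy nontrivial linear difference equations with respect to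
the endomorphism `σ` whose coefficients are polynomials in `t`, where `σ t = ρ (t)`, `ρ` a polynomial,
and the elements `σ^m t` are different. -/
def DiffPoint (σ : E →ₐ[K] E) (t : E) (ρ : Polynomial K) (h : Fin (n + 1) → E) : Prop :=
  σ t = Polynomial.aeval t ρ ∧ (Function.Injective fun m : ℕ => σ^[m] t) ∧ ∀ j, DRec σ t (h j)

/-- The point `Φ (h)` is fixed by some power of `σ`. -/
def PeriodicIm (σ : E →ₐ[K] E) (h : Fin (n + 1) → E)
    (Φ : Fin (s + 1) → MvPolynomial (Fin (n + 1)) K) : Prop :=
  ∃ g : ℕ, 1 ≤ g ∧ Par (fun u => aeval h (Φ u)) fun u => σ^[g] (aeval h (Φ u))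

/-- Only constants are fixed by powers of all the `σ l`. -/
def NoInvariants {Λ : Type} (σ : Λ → E →ₐ[K] E) : Prop :=
  ∀ f : E, (∀ l, ∃ g : ℕ, 1 ≤ g ∧ (σ l)^[g] f = f) → f ∈ (algebraMap K E).range

/-- The point `Φ (h)` is a point over `K`. -/
def ConstIm (h : Fin (n + 1) → E) (Φ : Fin (s + 1) → MvPolynomial (Fin (n + 1)) K) : Prop :=
  ∃ c : Fin (s + 1) → K, c ≠ 0 ∧ ∀ u v, C (c u) * Φ v - C (c v) * Φ u ∈ ptIdeal K h

/-- The closure `Z` of the image is covered by nonconstant rational curves of bounded degree. -/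
def CoveredIm (h : Fin (n + 1) → E) (Φ : Fin (s + 1) → MvPolynomial (Fin (n + 1)) K) : Prop :=
  ∃ B, ∀ y, OnV (ImIdeal (ptIdeal K h) Φ) y → OnCurve (ImIdeal (ptIdeal K h) Φ) B y

/-- **Images of points over difference fields.** Let `K` be an algebraically closed field of
characteristic zero, `E` an extension field (for instance the meromorphic functions on an algebraic
group over `K`), `h` a vector in `E`, `X` its locus over `K`, and let the polynomials `Φ` give a
rational map `φ` on `X`; let `Z` be the closure of its image.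

(1) If `h` satisfies linear difference equations with respect to an endomorphism `σ` of `E` over `K`,
then `φ (h)` is fixed by some power of `σ`, or `Z` is covered by rational curves of bounded degree.

(2) If `h` satisfies linear difference equations with respect to each of the `σ l`, and only constants
are fixed by powers of all `σ l`, then `φ (h)` is constant, or `Z` is covered by rational curves of
bounded degree. -/
theorem result (K E : Type) [Field K] [CharZero K] [IsAlgClosed K] [Field E] [Algebra K E]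
    {n s : ℕ} (h : Fin (n + 1) → E) (Φ : Fin (s + 1) → MvPolynomial (Fin (n + 1)) K)
    (hΦ : ∃ u, Φ u ∉ ptIdeal K h) :
    (∀ (σ : E →ₐ[K] E) (t : E) (ρ : Polynomial K), DiffPoint σ t ρ h →
      PeriodicIm σ h Φ ∨ CoveredIm h Φ) ∧
    ∀ (Λ : Type) (σ : Λ → E →ₐ[K] E), (∀ l, ∃ (t : E) (ρ : Polynomial K), DiffPoint (σ l) t ρ h) →
      NoInvariants σ → ConstIm h Φ ∨ CoveredIm h Φ := by
  classical
  have h1 : ∀ (σ : E →ₐ[K] E) (t : E) (ρ : Polynomial K), DiffPoint σ t ρ h →
      PeriodicIm σ h Φ ∨ CoveredIm h Φ := fun σ t ρ hd => diff_image hd.1 hd.2.1 hd.2.2 hΦ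
  refine ⟨h1, fun Λ σ hσ hno => ?_⟩
  by_cases hcov : CoveredIm h Φ
  · exact Or.inr hcov
  left
  obtain ⟨u0, hu0⟩ := hΦ
  have hz0 : aeval h (Φ u0) ≠ 0 := fun h0 => hu0 h0
  have hper : ∀ l, PeriodicIm (σ l) h Φ := by
    intro l
    obtain ⟨t, ρ, hd⟩ := hσ l
    exact (h1 _ t ρ hd).resolve_right hcov
  have hf : ∀ u, aeval h (Φ u) / aeval h (Φ u0) ∈ (algebraMap K E).range := by
    intro u
    refine hno _ fun l => ?_
    obtain ⟨g, hg, hpar⟩ := hper l
    refine ⟨g, hg, ?_⟩
    have h2 : (aeval h (Φ u) / aeval h (Φ u0)) * aeval h (Φ u0) = aeval h (Φ u) :=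
      div_mul_cancel₀ _ hz0
    have h3 := congrArg ((σ l)^[g] : E → E) h2
    rw [iterate_map_mul] at h3
    have h4 : ((σ l)^[g] : E → E) (aeval h (Φ u0)) ≠ 0 := by
      intro h0
      apply hz0
      apply ((σ l).toRingHom.injective.iterate g)
      exact h0.trans (iterate_map_zero (σ l) g).symm
    have h5 : aeval h (Φ u) * ((σ l)^[g] : E → E) (aeval h (Φ u0)) =
        aeval h (Φ u0) * ((σ l)^[g] : E → E) (aeval h (Φ u)) := hpar u u0
    rw [eq_div_iff hz0]
    apply mul_right_cancel₀ h4
    rw [h5, ← h3]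
    ring
  choose c hc using hf
  have hcz : ∀ u, aeval h (Φ u) = algebraMap K E (c u) * aeval h (Φ u0) := by
    intro u
    rw [hc, div_mul_cancel₀ _ hz0]
  refine ⟨c, fun h0 => ?_, fun u v => ?_⟩
  · have h2 := hcz u0
    rw [h0, Pi.zero_apply, map_zero, zero_mul] at h2
    exact hz0 h2
  · change aeval h (C (c u) * Φ v - C (c v) * Φ u) = 0
    rw [map_sub, map_mul, map_mul, aeval_C, aeval_C, hcz u, hcz v]
    ring

end Pool.Agent.Results.MP_e120ef_ag.DifferenceFieldImages
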