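import Pool.Agent.Q309.OFF.Germ

/-!
Analytic curves over normed fields given by linear functional equations: all images of their Zariski
closures under rational maps are points or covered by rational curves.
-/

set_option autoImplicit false

namespace Pool.Agent.Results.MP_e120ef_ag.FunctionalEquationCurves

open MvPolynomial Filter Topology
open Pool.Agent.Q309.OFF (OnV OnCurve ImIdeal germIdeal germ_image)

variable {K : Type} [NontriviallyNormedField K]

/-- `σ` is a contraction near `0`, and `t` is an injective function near `0` with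
`t (σ z) = ρ (t z)`, `ρ` a polynomial (for instance `σ z = q * z`, `t z = z`, `ρ = q * X` with
`0 < ‖q‖ < 1`). -/
def Contraction (σ t : K → K) (ρ : Polynomial K) : Prop :=
  ∃ c : ℝ, c < 1 ∧ (∀ᶠ z in 𝓝[≠] (0 : K), σ z ≠ 0 ∧ ‖σ z‖ ≤ c * ‖z‖ ∧ t (σ z) = ρ.eval (t z)) ∧
    ∃ U ∈ 𝓝[≠] (0 : K), Set.InjOn t U

/-- The function `f` satisfies a nontrivial linear equation
`P_0 (t z) * f z + P_1 (t z) * f (σ z) + … + P_r (t z) * f (σ^r z) = 0` for all `z ≠ 0` near `0`,
the `P_i` are polynomials over `K`. -/
def LinEq (σ t f : K → K) : Prop :=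
  ∃ (r : ℕ) (P : ℕ → Polynomial K), (∃ i ≤ r, P i ≠ 0) ∧
    ∀ᶠ z in 𝓝[≠] (0 : K), ∑ i ∈ Finset.range (r + 1), (P i).eval (t z) * f (σ^[i] z) = 0

/-- The curve `Φ ∘ h` is constant. -/
def ConstCurve {n s : ℕ} (h : K → Fin (n + 1) → K)
    (Φ : Fin (s + 1) → MvPolynomial (Fin (n + 1)) K) : Prop :=
  ∃ a : Fin (s + 1) → K, a ≠ 0 ∧ ∀ u v, C (a u) * Φ v - C (a v) * Φ u ∈ germIdeal h

/-- **Curves given by linear functional equations.** Let `K` be an algebraically closed field of
characteristic zero with a nontrivial absolute value, and let `h 0, …, h n` be analytic functions at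
`0` which satisfy nontrivial linear functional equations with respect to a contraction `σ` and `t`.
Let `X` be the Zariski closure of the curve `h`, and let `Φ` be polynomials which do not all vanish on
the curve (for forms of one degree: a rational map from `X` to the projective space of dimension `s`).
Then `Φ ∘ h` is constant, or for some `B` every point of the closure `Z` of the image lies on a
nonconstant rational curve of degree at most `B` in `Z`. -/
theorem result (K : Type) [NontriviallyNormedField K] [CharZero K] [IsAlgClosed K] {n s : ℕ}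
    (h : K → Fin (n + 1) → K) (hh : ∀ j, AnalyticAt K (fun z => h z j) 0) (σ t : K → K)
    (ρ : Polynomial K) (hσ : Contraction σ t ρ) (hrec : ∀ j, LinEq σ t fun z => h z j)
    (Φ : Fin (s + 1) → MvPolynomial (Fin (n + 1)) K) (hΦ : ∃ u, Φ u ∉ germIdeal h) :
    ConstCurve h Φ ∨
      ∃ B, ∀ y, OnV (ImIdeal (germIdeal h) Φ) y → OnCurve (ImIdeal (germIdeal h) Φ) B y := by
  obtain ⟨c, hc, h1, h2⟩ := hσ
  exact germ_image hh hc h1 h2 hrec hΦ

end Pool.Agent.Results.MP_e120ef_ag.FunctionalEquationCurves
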